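import Pool.Agent.Helper13.TW.StF

/-!
# Module TR1 of project TW (MP_a45945_gt, owner helper13)

From the product to the factor (the argument is that of helper63 for TRA of project TR).
-/

set_option autoImplicit false

namespace Pool.Agent.Helper84.TW

open Set Topology Pool.Agent.Helper13.TR Pool.Agent.Helper13.TW

private lemma push_id {X : Type} [TopologicalSpace X] (n : ℕ) (c : Ch X n) :
    push (ContinuousMap.id X) n c = c := by
  have h : (fun σ : Sx X n => (ContinuousMap.id X).comp σ) = id := by
    funext σ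
    exact ContinuousMap.id_comp σ
  unfold push
  rw [h]
  exact Finsupp.mapDomain_id

theorem hTR1 (hPSH : StPSH) : StTR1 := by
  intro W A _ _ h
  set π : C(W, A) := ⟨fun w => (h w).2, by fun_prop⟩ with hπ
  set j : C(A, W) := ⟨fun a => h.symm (0, a), by fun_prop⟩ with hj
  have hπj : ∀ a : A, π (j a) = a := by
    intro a
    simp [hπ, hj]
  have hcomp : π.comp j = ContinuousMap.id A := by
    ext a
    exact hπj a
  refine ⟨?_, ?_⟩
  · intro hW a U hU ha
    obtain ⟨V', hV', hwV', hV'U, hz⟩ := hW (j a) (π ⁻¹' U) (hU.preimage π.continuous)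
      (by rw [mem_preimage, hπj]; exact ha)
    refine ⟨j ⁻¹' V', hV'.preimage j.continuous, hwV', ?_, ?_⟩
    · intro a' ha'
      have h1 : j a' ∈ π ⁻¹' U := hV'U ha'
      rw [mem_preimage, hπj] at h1
      exact h1
    · intro z hzV hbd
      have hj' := hPSH A W A j π
      have hπ' := hPSH W A A π (ContinuousMap.id A)
      have h1 : push j 1 z ∈ cin V' 1 := hj'.2.2.1 V' 1 z hzV
      have h2 : bd 0 (push j 1 z) = 0 := by
        rw [hj'.1 0 z, hbd, map_zero]
      obtain ⟨e, he, hbe⟩ := hz (push j 1 z) h1 h2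
      refine ⟨push π 2 e, hπ'.2.2.1 U 2 e he, ?_⟩
      rw [hπ'.1 1 e, hbe, ← hj'.2.1 1 z, hcomp, push_id]
  · intro hW
    have hq : IsQuotientMap π := IsQuotientMap.of_inverse j.continuous π.continuous hπj
    exact hq.locallyPathConnectedSpace

end Pool.Agent.Helper84.TW
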