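import Pool.Agent.Helper9.TW.St

/-!
# Project TW (MP_5e9b96_nt), module POS: an upper bound weight has nonnegative main term
-/

set_option autoImplicit false

noncomputable section

namespace Pool.Agent.Helper84.TW

open Finset Filter Topology
open Pool.Agent.Helper9.TW

/-- a function supported on `[1, M]` with nonnegative divisor sums has nonnegative logarithmic sum -/
private theorem nonneg_POS (M : ℕ) (lam : ℕ → ℝ) (hs : ∀ q, lam q ≠ 0 → 1 ≤ q ∧ q ≤ M)
    (hd : ∀ n : ℕ, 1 ≤ n → 0 ≤ ∑ q ∈ n.divisors, lam q) :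
    0 ≤ ∑ q ∈ range (M + 1), lam q / q := by
  classical
  obtain ⟨X, hX⟩ : ∃ X, X = M.factorial := ⟨_, rfl⟩
  have hX0 : 0 < X := by rw [hX]; exact Nat.factorial_pos M
  have h1 : ∀ n ∈ Ioc 0 X, ∑ q ∈ n.divisors, lam q =
      ∑ q ∈ range (M + 1), if q ∣ n then lam q else 0 := by
    intro n hn
    have hn0 : n ≠ 0 := by
      have := (mem_Ioc.1 hn).1
      omega
    apply sum_congr_of_eq_on_inter
    · intro q hq hq'
      by_contra hne
      exact hq' (mem_range.2 (Nat.lt_succ_of_le (hs q hne).2))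
    · intro q hq hq'
      rw [if_neg]
      intro hdvd
      exact hq' (Nat.mem_divisors.2 ⟨hdvd, hn0⟩)
    · intro q hq _
      rw [if_pos (Nat.mem_divisors.1 hq).1]
  have h2 : 0 ≤ ∑ n ∈ Ioc 0 X, ∑ q ∈ n.divisors, lam q :=
    sum_nonneg (fun n hn => hd n (mem_Ioc.1 hn).1)
  rw [sum_congr rfl h1, sum_comm] at h2
  have h3 : ∀ q ∈ range (M + 1), (∑ n ∈ Ioc 0 X, if q ∣ n then lam q else 0) =
      (X : ℝ) * (lam q / q) := by
    intro q hq
    rw [← sum_filter, sum_const, Nat.Ioc_filter_dvd_card_eq_div, nsmul_eq_mul]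
    by_cases hne : lam q = 0
    · rw [hne]; ring
    · obtain ⟨hq1, hq2⟩ := hs q hne
      have hdvd : q ∣ X := by
        rw [hX]
        exact Nat.dvd_factorial (by omega) hq2
      have hq0 : (q : ℝ) ≠ 0 := by
        have : q ≠ 0 := by omega
        exact_mod_cast this
      rw [Nat.cast_div hdvd hq0]
      ring
  rw [sum_congr rfl h3, ← mul_sum] at h2
  have hXr : (0 : ℝ) < (X : ℝ) := by exact_mod_cast hX0
  exact nonneg_of_mul_nonneg_right h2 hXr

theorem hPOS (hX : StWFX) : StPOS := by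
  intro ω j0 N j μ hω hN hU
  obtain ⟨T, B, Lam, hWF, hUp, hlim⟩ := hU
  have hx0 : 0 ≤ (N : ℝ) * ω := by positivity
  apply ge_of_tendsto hlim
  filter_upwards [hWF, hUp, eventually_ge_atTop 1] with a ha1 ha2 ha
  unfold ms
  have haR : (1 : ℝ) ≤ (a : ℝ) := by exact_mod_cast ha
  apply nonneg_POS (a ^ 2) (Lam a)
  · intro q hq
    obtain ⟨hSp, hle⟩ := hX a j0 j ω ((N : ℝ) * ω) T B (Lam a) ha hx0 ha1 q hq
    refine ⟨Nat.pos_of_ne_zero hSp.1.ne_zero, ?_⟩
    have h1 : (q : ℝ) ≤ (a : ℝ) ^ (2 : ℝ) :=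
      hle.trans (Real.rpow_le_rpow_of_exponent_le haR hN)
    rw [Real.rpow_two] at h1
    exact_mod_cast h1
  · intro n hn
    refine le_trans ?_ (ha2 n hn)
    unfold ind
    split_ifs <;> norm_num

end Pool.Agent.Helper84.TW
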